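import Pool.Agent.H99S.Final

/-!
# Green's function level sets under circular symmetrisation: simply connected domains and the slit plane

For every simply connected domain `D` in the plane with `0 ∉ D`, every pole `a > 0` in `D` and
every `lam > 0`, the circular symmetrisation of the level set `{g_D > lam}` is contained in the
level set `{g > lam}` of the Green's function of `ℂ ∖ (-∞, 0]` with pole `a`.
If `D^* = ℂ ∖ (-∞, 0]` (which forces `0 ∉ D`) this is the inclusion `(D_lam)^* ⊆ (D^*)_lam`.
-/

set_option autoImplicit false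

namespace Pool.Agent.Results.MP_d9eea5_an.SimplyConnectedSlit

open Pool.Agent.H99.Circ

theorem result (D : Set ℂ) (hD : IsOpen D) (hsc : IsSimplyConnected D) (h0 : (0 : ℂ) ∉ D)
    (a : ℝ) (ha : 0 < a) (haD : (a : ℂ) ∈ D) (g gs : ℂ → ℝ) (hg : IsGreen D a g)
    (hgs : IsGreen Complex.slitPlane a gs) (lam : ℝ) (hlam : 0 < lam) :
    circSym (level D a g lam) ⊆ level Complex.slitPlane a gs lam :=
  Pool.Agent.H99S.main hD hsc h0 ha haD hg hgs hlam

end Pool.Agent.Results.MP_d9eea5_an.SimplyConnectedSlit
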