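import Pool.Agent.H99D.Final

/-!
# Green's function level sets under circular symmetrisation: a simply connected counterexample

There are a simply connected domain `D` whose circular symmetrisation is `{|z| < 1} ∖ (-1, 0]`, a
pole `a > 0` in `D` and a level `lam > 0` for which `(D_lam)^*` is not contained in `(D^*)_lam`.
(In the proof `D` is the disc cut along a circular arc from `0` to the unit circle.)
-/

set_option autoImplicit false

namespace Pool.Agent.Results.MP_d9eea5_an.SimplyConnectedSlitDisc

open Pool.Agent.H99.Circ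

theorem result : ∃ (D : Set ℂ) (a : ℝ) (g gs : ℂ → ℝ) (lam : ℝ) (z : ℂ),
    IsOpen D ∧ IsSimplyConnected D ∧
    circSym D = {z | ‖z‖ < 1 ∧ z ∈ Complex.slitPlane} ∧
    0 < a ∧ (a : ℂ) ∈ D ∧ IsGreen D a g ∧ IsGreen (circSym D) a gs ∧ 0 < lam ∧
    z ∈ circSym (level D a g lam) ∧ z ∉ level (circSym D) a gs lam :=
  Pool.Agent.H99D.main

end Pool.Agent.Results.MP_d9eea5_an.SimplyConnectedSlitDisc
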